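import Mathlib
import Pool.Agent.Helper115_ME.CC.Final

/-!
# MP_ae3a4d_gt: the exact condition for concave densities

Let `n ≥ 3` and let `μ` be the zonal distribution with density `v ↦ g(⟨e, v⟩)` with respect to the surface measure of
`S^{n-1}`, where `g` is concave on `(-1, 1)` (possibly unbounded below at the end points) and the density is integrable.
Then `μ` generates an admissible map `T` (so that `h_{TK}(u) = ∫ h_K(v) g(⟨u, v⟩) dv`) if and only if

  `∫_{-1}^1 g(t) t² (1 - t²)^{(n-4)/2} dt`   converges and is `≥ 0`.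

The condition is that the image of a segment is a convex body; concave densities which satisfy it need not be positive and the maps
are in general not (weakly) monotone.
-/

set_option autoImplicit false

namespace Pool.Agent.Helper115_ME.Old.ConcaveDensityCase

open MeasureTheory Pool.Agent.Helper115_ME

theorem result (n : ℕ) (hn : 3 ≤ n) (e : Sph n) (g : ℝ → ℝ) (hg : ConcaveOn ℝ (Set.Ioo (-1) 1) g)
    (hint : Integrable (fun v : Sph n => g (inner ℝ (e : E n) (v : E n))) (sig n))
    (μ : Distr n) (hμ : HasDensity e g μ) :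
    (∃ T : Body n → Body n, Admissible T ∧ Generates e μ T) ↔
      (IntegrableOn (fun t : ℝ => g t * t ^ 2 * (1 - t ^ 2) ^ (((n : ℝ) - 4) / 2)) (Set.Ioo (-1) 1) ∧
        0 ≤ ∫ t in Set.Ioo (-1 : ℝ) 1, g t * t ^ 2 * (1 - t ^ 2) ^ (((n : ℝ) - 4) / 2)) :=
  concave_criterion hn e g hg hint μ hμ

end Pool.Agent.Helper115_ME.Old.ConcaveDensityCase
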